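import Pool.Agent.Run7.h135.R2Ld
import Pool.Agent.Y698.Prb

/-!
The real period of `y² = x³ - 4 x² + 2 x`: the lattice.
-/

set_option autoImplicit false
set_option linter.unusedSectionVars false

open Filter MeasureTheory
open scoped Topology PeriodPair

namespace Run7.h555.C12

open H667R3 Pool.Agent.W192.HK Pool.Agent.TH936.CM Pool.Agent.TH936.PU
open Pool.Agent.Y698 (isLat_neg_mem dwp_half root_half dwp_per' dwp_neg' real_of_conj)
open Pool.Agent.Run7.h135.R2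

variable {L : PeriodPair} {Ω : ℂ}

/-- the lattice with the other sign -/
structure LM (L : PeriodPair) (Ω : ℂ) : Prop where
  lat : IsLat L RR Ω
  e : ℘[L] (tT Ω) = -4 / 3

lemma LM.cA (h : LM L Ω) : cA L Ω = -4 := by
  unfold Pool.Agent.Run7.h135.R2.cA
  rw [h.e]
  norm_num

lemma LM.cB (h : LM L Ω) : cB L Ω = 2 := by
  have h1 := (cA_sq h.lat).1
  rw [h.cA] at h1
  linear_combination (-1 / 8 : ℂ) * h1

lemma LM.ode (h : LM L Ω) {z : ℂ} (hz : z ∉ L.lattice) :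
    ℘'[L] z ^ 2 = 4 * xx L Ω z ^ 3 - 16 * xx L Ω z ^ 2 + 8 * xx L Ω z := by
  rw [ode_x h.lat hz, h.cA, h.cB]
  ring

lemma conj_lm : (starRingEnd ℂ) lm = -lm := by
  apply Complex.ext
  · rw [Complex.conj_re, Complex.neg_re, lm_re]; norm_num
  · rw [Complex.conj_im, Complex.neg_im]

lemma wp_lat (hL : IsLat L RR Ω) (z : ℂ) :
    ℘[L] (Ω * z) = (Ω ^ 2)⁻¹ * ∑' r : RR, (1 / (z - r) ^ 2 - 1 / (r : ℂ) ^ 2) := by
  unfold PeriodPair.weierstrassP
  rw [← (latE hL).tsum_eq, ← tsum_mul_left]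
  refine tsum_congr fun r => ?_
  rw [latE_coe]
  have h1 : Ω * z - Ω * r = Ω * (z - r) := by ring
  rw [h1, mul_pow, mul_pow, mul_sub, one_div, one_div, one_div, one_div, mul_inv, mul_inv]

/-- complex conjugation as a permutation of the ring -/
noncomputable def cjE : RR ≃ RR where
  toFun := cj
  invFun := cj
  left_inv := cj_cj
  right_inv := cj_cj

/-- the lattice sum for the lattice `R` -/
noncomputable def SR (z : ℂ) : ℂ := ∑' r : RR, (1 / (z - r) ^ 2 - 1 / (r : ℂ) ^ 2)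

lemma SR_conj (z : ℂ) : SR ((starRingEnd ℂ) z) = (starRingEnd ℂ) (SR z) := by
  unfold SR
  rw [Complex.conj_tsum, ← cjE.tsum_eq]
  refine tsum_congr fun r => ?_
  have h : ((cjE r : RR) : ℂ) = (starRingEnd ℂ) (r : ℂ) := cj_coe r
  rw [h]
  simp only [map_sub, map_div₀, map_one, map_pow]

lemma wp_SR (hL : IsLat L RR Ω) (z : ℂ) : ℘[L] (Ω * z) = (Ω ^ 2)⁻¹ * SR z := wp_lat hL z

lemma SR_neg (z : ℂ) : SR (-z) = SR z := by
  have hL := mkL_isLat (ω := lm) (Ω := 1) qr one_ne_zero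
  have h1 := wp_SR hL z
  have h2 := wp_SR hL (-z)
  rw [one_mul, one_pow, inv_one, one_mul] at h1 h2
  rw [← h1, ← h2, PeriodPair.weierstrassP_neg]

/-- the two normalizations -/
theorem LM_of_LN (h : LN L Ω) : ∃ L' : PeriodPair, LM L' (Complex.I * Ω) := by
  have hΩ : Ω ≠ 0 := h.lat.ne
  have h1 : (Ω ^ 2)⁻¹ * SR (1 / lm) = 4 / 3 := by
    rw [← wp_SR h.lat, ← h.e]
    congr 1
    unfold tT
    ring
  have h0 : Complex.I * Ω ≠ 0 := mul_ne_zero Complex.I_ne_zero hΩ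
  refine ⟨mkL lm (Complex.I * Ω) qr.im h0, mkL_isLat qr h0, ?_⟩
  have e : tT (Complex.I * Ω) = (Complex.I * Ω) * (1 / lm) := by
    unfold tT
    ring
  rw [e, wp_SR (mkL_isLat qr h0), mul_pow, Complex.I_sq, mul_inv]
  linear_combination (-1 : ℂ) * h1

lemma LM.conj_sq (h : LM L Ω) : (starRingEnd ℂ) (Ω ^ 2) = Ω ^ 2 := by
  have hΩ : Ω ≠ 0 := h.lat.ne
  have h1 : (Ω ^ 2)⁻¹ * SR (1 / lm) = -4 / 3 := by
    rw [← wp_SR h.lat, ← h.e]
    congr 1
    unfold tT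
    ring
  have h4 : SR (1 / lm) = Ω ^ 2 * (-4 / 3) := by
    rw [← h1]
    field_simp
  have h3 : (starRingEnd ℂ) (SR (1 / lm)) = SR (1 / lm) := by
    rw [← SR_conj, map_div₀, map_one, conj_lm, div_neg, SR_neg]
  rw [h4, map_mul] at h3
  have h6 : (starRingEnd ℂ) (-4 / 3) = -4 / 3 := by
    rw [map_div₀, map_neg, Complex.conj_ofNat, Complex.conj_ofNat]
  rw [h6] at h3
  exact mul_right_cancel₀ (by norm_num) h3

lemma LM.conj_om (h : LM L Ω) : (starRingEnd ℂ) Ω = Ω ∨ (starRingEnd ℂ) Ω = -Ω := by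
  have h1 := h.conj_sq
  rw [map_pow] at h1
  exact sq_eq_sq_iff_eq_or_eq_neg.1 h1

lemma LM.conj_mem (h : LM L Ω) {z : ℂ} (hz : z ∈ L.lattice) : (starRingEnd ℂ) z ∈ L.lattice := by
  obtain ⟨r, rfl⟩ := (h.lat.mem z).1 hz
  rw [map_mul, ← cj_coe]
  rcases h.conj_om with h1 | h1
  · rw [h1]; exact (h.lat.mem _).2 ⟨_, rfl⟩
  · rw [h1, neg_mul]; exact neg_mem ((h.lat.mem _).2 ⟨_, rfl⟩)

lemma LM.conj_mem_iff (h : LM L Ω) {z : ℂ} : (starRingEnd ℂ) z ∈ L.lattice ↔ z ∈ L.lattice := by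
  refine ⟨fun h1 => ?_, h.conj_mem⟩
  have := h.conj_mem h1
  rwa [Complex.conj_conj] at this

lemma LM.wp_conj (h : LM L Ω) (z : ℂ) : ℘[L] ((starRingEnd ℂ) z) = (starRingEnd ℂ) (℘[L] z) := by
  have hΩ : Ω ≠ 0 := h.lat.ne
  have e : z = Ω * (z / Ω) := by field_simp
  have h1 : ℘[L] (Ω * (starRingEnd ℂ) (z / Ω)) = (starRingEnd ℂ) (℘[L] z) := by
    conv_rhs => rw [e]
    rw [wp_SR h.lat, wp_SR h.lat, SR_conj, map_mul, map_inv₀, h.conj_sq]
  rw [← h1]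
  rcases h.conj_om with h2 | h2
  · congr 1
    conv_lhs => rw [e]
    rw [map_mul, h2]
  · rw [← L.weierstrassP_neg]
    congr 1
    conv_lhs => rw [e]
    rw [map_mul, h2]
    ring

lemma LM.xx_conj (h : LM L Ω) (z : ℂ) :
    xx L Ω ((starRingEnd ℂ) z) = (starRingEnd ℂ) (xx L Ω z) := by
  unfold xx
  rw [h.wp_conj, map_sub, h.e, map_div₀, map_neg, Complex.conj_ofNat, Complex.conj_ofNat]

lemma LM.dwp_conj (h : LM L Ω) {z : ℂ} (hz : z ∉ L.lattice) :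
    ℘'[L] ((starRingEnd ℂ) z) = (starRingEnd ℂ) (℘'[L] z) := by
  have hz' : (starRingEnd ℂ) z ∉ L.lattice := fun h1 => hz (h.conj_mem_iff.1 h1)
  have h1 := (hasDerivAt_weierstrassP L hz).conj_conj
  have h2 : (starRingEnd ℂ) ∘ ℘[L] ∘ (starRingEnd ℂ) = ℘[L] := by
    funext w
    simp only [Function.comp_apply, h.wp_conj, Complex.conj_conj]
  rw [h2] at h1
  exact (hasDerivAt_weierstrassP L hz').unique h1

/-- the least positive real period -/
structure RQ (L : PeriodPair) (ω : ℝ) : Prop where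
  pos : 0 < ω
  mem : (ω : ℂ) ∈ L.lattice
  notMem : ∀ t : ℝ, 0 < t → t < ω → (t : ℂ) ∉ L.lattice

lemma int_lt {t a : ℝ} {k : ℤ} (h0 : 0 < t) (h1 : t < |a|) (h : t = a * k) : False := by
  have h2 : |t| = |a| * |(k : ℝ)| := by rw [h, abs_mul]
  rw [abs_of_pos h0] at h2
  have ha : 0 < |a| := h0.trans h1
  have h3 : |(k : ℝ)| < 1 := by
    by_contra h4
    push Not at h4
    nlinarith
  have h5 : k = 0 := by
    have : |k| < 1 := by exact_mod_cast h3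
    exact Int.abs_lt_one_iff.1 this
  rw [h, h5] at h0
  simp at h0

/-- `Ω` real -/
theorem LM.RQ_real (h : LM L Ω) (h1 : (starRingEnd ℂ) Ω = Ω) :
    ∃ ω : ℝ, RQ L ω ∧ (ω : ℂ) ^ 2 = Ω ^ 2 := by
  have hΩ : Ω ≠ 0 := h.lat.ne
  obtain ⟨a, ha⟩ := Complex.conj_eq_iff_real.1 h1
  have ha0 : a ≠ 0 := by rintro rfl; exact hΩ (by rw [ha]; simp)
  refine ⟨|a|, ⟨abs_pos.2 ha0, ?_, ?_⟩, ?_⟩
  · rcases abs_choice a with h7 | h7
    · refine (h.lat.mem _).2 ⟨1, ?_⟩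
      rw [h7, ha]; push_cast; ring
    · refine (h.lat.mem _).2 ⟨-1, ?_⟩
      rw [h7, ha]; push_cast; ring
  · intro t h0 ht1 ht
    obtain ⟨r, hr⟩ := (h.lat.mem _).1 ht
    have h2 : (starRingEnd ℂ) (t : ℂ) = t := Complex.conj_ofReal t
    rw [hr, map_mul, h1, co r, map_add, map_mul, conj_lm, map_intCast, map_intCast] at h2
    have h3 := mul_left_cancel₀ hΩ h2
    have h4 : (cY r : ℂ) * lm = 0 := by linear_combination (-1 / 2 : ℂ) * h3
    rw [co r, h4, ha] at hr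
    refine int_lt (k := cX r) h0 ht1 ?_
    apply Complex.ofReal_injective
    push_cast
    rw [hr]
    ring
  · rw [ha, ← Complex.ofReal_pow, sq_abs, Complex.ofReal_pow]

/-- `Ω` imaginary: the point of order two is half of the real period -/
theorem LM.RQ_imag (h : LM L Ω) (h1 : (starRingEnd ℂ) Ω = -Ω) :
    ∃ ω : ℝ, RQ L ω ∧ xx L Ω ((ω / 2 : ℝ) : ℂ) = 0 := by
  have hΩ : Ω ≠ 0 := h.lat.ne
  have h1s : (starRingEnd ℂ) (Ω * lm) = Ω * lm := by rw [map_mul, h1, conj_lm]; ring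
  obtain ⟨a, ha⟩ := Complex.conj_eq_iff_real.1 h1s
  have ha0 : a ≠ 0 := by
    rintro rfl
    exact mul_ne_zero hΩ lm_ne (by rw [ha]; simp)
  have e : (lR : ℂ) = lm := lR_coe
  refine ⟨|a|, ⟨abs_pos.2 ha0, ?_, ?_⟩, ?_⟩
  · rcases abs_choice a with h7 | h7
    · refine (h.lat.mem _).2 ⟨lR, ?_⟩
      rw [h7, e, ha]
    · refine (h.lat.mem _).2 ⟨-lR, ?_⟩
      rw [h7]; push_cast; rw [e, ← ha]; ring
  · intro t h0 ht1 ht
    obtain ⟨r, hr⟩ := (h.lat.mem _).1 ht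
    have h2 : (starRingEnd ℂ) (t : ℂ) = t := Complex.conj_ofReal t
    rw [hr, map_mul, h1, co r, map_add, map_mul, conj_lm, map_intCast, map_intCast, neg_mul,
      ← mul_neg] at h2
    have h3 := mul_left_cancel₀ hΩ h2
    have h4 : (cX r : ℂ) = 0 := by linear_combination (-1 / 2 : ℂ) * h3
    rw [co r, h4] at hr
    refine int_lt (k := cY r) h0 ht1 ?_
    apply Complex.ofReal_injective
    push_cast
    rw [hr, ← ha]
    ring
  · have e2 : tT Ω = -((a : ℝ) / 2 : ℂ) := by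
      unfold tT
      rw [← ha, div_eq_iff lm_ne]
      linear_combination (Ω / 2) * lm_sq
    unfold xx
    rw [e2, L.weierstrassP_neg]
    rcases abs_choice a with h7 | h7
    · rw [h7]
      push_cast
      ring
    · rw [h7]
      have e3 : ((-a / 2 : ℝ) : ℂ) = -((a : ℝ) / 2 : ℂ) := by push_cast; ring
      rw [e3, L.weierstrassP_neg]
      ring

end Run7.h555.C12
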