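import Pool.Agent.Run7.h555.C12.P1

/-!
The real period of `y² = x³ - 4 x² + 2 x`: the image of the real half-period, and the integral.
-/

set_option autoImplicit false
set_option linter.unusedSectionVars false

open Filter MeasureTheory Set
open scoped Topology PeriodPair

namespace Run7.h555.C12

open H667R3 Pool.Agent.W192.HK Pool.Agent.TH936.CM Pool.Agent.TH936.PU
open Pool.Agent.Y698 (isLat_neg_mem dwp_half root_half dwp_per' dwp_neg' real_of_conj)
open Pool.Agent.Run7.h135.R2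

variable {L : PeriodPair} {Ω : ℂ} {ω : ℝ}

/-- the cubic -/
noncomputable def qq (x : ℝ) : ℝ := 4 * x ^ 3 - 16 * x ^ 2 + 8 * x

lemma qq_fac (x : ℝ) : qq x = 4 * x * (x - (2 - √2)) * (x - (2 + √2)) := by
  have h : √2 ^ 2 = 2 := Real.sq_sqrt (by norm_num)
  unfold qq
  linear_combination (4 * x) * h

lemma s2 : 1 < √2 ∧ √2 < 2 := by
  constructor
  · rw [Real.lt_sqrt (by norm_num)]; norm_num
  · rw [Real.sqrt_lt' (by norm_num)]; norm_num

lemma qq_root : qq (2 + √2) = 0 := by rw [qq_fac]; ring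

lemma qq_zero_ge {x : ℝ} (h : qq x = 0) (h1 : 2 + √2 ≤ x) : x = 2 + √2 := by
  have h2 := s2
  rw [qq_fac] at h
  have a1 : 4 * x * (x - (2 - √2)) ≠ 0 := by
    apply ne_of_gt
    apply mul_pos <;> linarith
  have := (mul_eq_zero.1 h).resolve_left a1
  linarith

/-- the coordinate on the real line -/
noncomputable def uu' (L : PeriodPair) (Ω : ℂ) (t : ℝ) : ℝ := (xx L Ω t).re

lemma LM.u_real (h : LM L Ω) (t : ℝ) : ((uu' L Ω t : ℝ) : ℂ) = xx L Ω t := by
  apply real_of_conj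
  rw [← h.xx_conj, Complex.conj_ofReal]

lemma LM.d_real (h : LM L Ω) {t : ℝ} (ht : (t : ℂ) ∉ L.lattice) :
    (((℘'[L] t).re : ℝ) : ℂ) = ℘'[L] t := by
  apply real_of_conj
  rw [← h.dwp_conj ht, Complex.conj_ofReal]

lemma hasDerivAt_xx {z : ℂ} (hz : z ∉ L.lattice) : HasDerivAt (xx L Ω) (℘'[L] z) z := by
  unfold xx
  exact (hasDerivAt_weierstrassP L hz).sub_const _

lemma hasDerivAt_u {t : ℝ} (ht : (t : ℂ) ∉ L.lattice) :
    HasDerivAt (uu' L Ω) (℘'[L] (t : ℂ)).re t :=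
  (hasDerivAt_xx ht).real_of_complex

lemma LM.ode_real (h : LM L Ω) {t : ℝ} (ht : (t : ℂ) ∉ L.lattice) :
    (℘'[L] t).re ^ 2 = qq (uu' L Ω t) := by
  apply Complex.ofReal_injective
  unfold qq
  push_cast
  rw [h.d_real ht, h.u_real, h.ode ht]

lemma LM.qq_pos (h : LM L Ω) (hω : RQ L ω) {t : ℝ} (h0 : 0 < t) (h1 : t < ω / 2) :
    0 < qq (uu' L Ω t) := by
  have hp := hω.pos
  have ht : (t : ℂ) ∉ L.lattice := hω.notMem t h0 (by linarith)
  rw [← h.ode_real ht]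
  have h2 : ℘'[L] (t : ℂ) ≠ 0 := wp'_ne_zero L (by
    have := hω.notMem (2 * t) (by linarith) (by linarith)
    push_cast at this
    exact this)
  have h3 : (℘'[L] t).re ≠ 0 := by
    intro h4
    apply h2
    rw [← h.d_real ht, h4]
    simp
  positivity

lemma LM.inj_real (h : LM L Ω) (hω : RQ L ω) : Set.InjOn (uu' L Ω) (Set.Ioo 0 (ω / 2)) := by
  intro t ht u hu e
  have hp := hω.pos
  obtain ⟨ht0, ht1⟩ := ht
  obtain ⟨hu0, hu1⟩ := hu
  have h1 : ℘[L] (t : ℂ) = ℘[L] (u : ℂ) := by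
    have h2 : xx L Ω t = xx L Ω u := by
      rw [← h.u_real t, ← h.u_real u, e]
    unfold xx at h2
    linear_combination h2
  rw [wp_eq_iff L (hω.notMem t ht0 (by linarith)) (hω.notMem u hu0 (by linarith))] at h1
  rcases h1 with h1 | h1
  · exfalso
    refine hω.notMem (t + u) (by linarith) (by linarith) (by push_cast; exact h1)
  · rcases lt_trichotomy t u with h2 | h2 | h2
    · exfalso
      have := neg_mem h1
      rw [neg_sub] at this
      refine hω.notMem (u - t) (by linarith) (by linarith) (by push_cast; exact this)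
    · exact h2
    · exfalso
      refine hω.notMem (t - u) (by linarith) (by linarith) (by push_cast; exact h1)

lemma u_top : Tendsto (uu' L Ω) (𝓝[>] 0) atTop := by
  have h1 : ∀ t : ℝ, uu' L Ω t = (1 / t ^ 2) + ((℘[L - (0 : ℂ)] (t : ℂ)).re - (℘[L] (tT Ω)).re) := by
    intro t
    have h2 := L.weierstrassPExcept_add (0 : L.lattice) (t : ℂ)
    simp only [ZeroMemClass.coe_zero, sub_zero] at h2
    unfold uu' xx
    rw [Complex.sub_re, ← h2]
    have e : (1 / (t : ℂ) ^ 2 - 1 / 0 ^ 2) = ((1 / t ^ 2 : ℝ) : ℂ) := by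
      push_cast
      simp
    rw [e, Complex.add_re, Complex.ofReal_re]
    ring
  have h2 : Tendsto (fun t : ℝ => (℘[L - (0 : ℂ)] (t : ℂ)).re - (℘[L] (tT Ω)).re) (𝓝[>] 0)
      (𝓝 ((℘[L - (0 : ℂ)] ((0 : ℝ) : ℂ)).re - (℘[L] (tT Ω)).re)) := by
    have h4 : ContinuousAt ℘[L - (0 : ℂ)] ((0 : ℝ) : ℂ) := by
      rw [Complex.ofReal_zero]
      exact (L.analyticAt_weierstrassPExcept 0).continuousAt
    have h5 : ContinuousAt (fun t : ℝ => (℘[L - (0 : ℂ)] (t : ℂ)).re) 0 :=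
      Complex.continuous_re.continuousAt.comp (h4.comp Complex.continuous_ofReal.continuousAt)
    exact (h5.tendsto.mono_left nhdsWithin_le_nhds).sub_const _
  have h3 : Tendsto (fun t : ℝ => 1 / t ^ 2) (𝓝[>] 0) atTop := by
    have h4 : Tendsto (fun t : ℝ => t⁻¹) (𝓝[>] 0) atTop := tendsto_inv_nhdsGT_zero
    have h5 := (tendsto_pow_atTop (α := ℝ) two_ne_zero).comp h4
    refine h5.congr fun t => ?_
    simp [inv_pow]
  exact (h3.atTop_add h2).congr fun t => (h1 t).symm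

lemma u_cont (hω : RQ L ω) : ContinuousOn (uu' L Ω) (Set.Ioc 0 (ω / 2)) := by
  intro t ht
  have hp := hω.pos
  exact (hasDerivAt_u (hω.notMem t ht.1 (by linarith [ht.2]))).continuousAt.continuousWithinAt

/-- a small argument with a large value -/
lemma exists_small {b : ℝ} (hb : 0 < b) (M : ℝ) : ∃ t : ℝ, 0 < t ∧ t < b ∧ M < uu' L Ω t := by
  have h1 : ∀ᶠ t in 𝓝[>] (0 : ℝ), M < uu' L Ω t := u_top.eventually_gt_atTop M
  have h2 : ∀ᶠ t in 𝓝[>] (0 : ℝ), t < b := by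
    filter_upwards [Ioo_mem_nhdsGT hb] with t ht using ht.2
  have h3 : ∀ᶠ t in 𝓝[>] (0 : ℝ), 0 < t := self_mem_nhdsWithin
  obtain ⟨t, h4, h5, h6⟩ := (h1.and (h2.and h3)).exists
  exact ⟨t, h6, h5, h4⟩

lemma LM.u_gt (h : LM L Ω) (hω : RQ L ω) {t : ℝ} (h0 : 0 < t) (h1 : t < ω / 2) :
    2 + √2 < uu' L Ω t := by
  by_contra hc
  push Not at hc
  obtain ⟨s, hs0, hst, hs⟩ := exists_small (L := L) (Ω := Ω) h0 (2 + √2)
  have h2 : ContinuousOn (uu' L Ω) (Set.Icc s t) :=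
    (u_cont hω).mono fun r hr => ⟨hs0.trans_le hr.1, by linarith [hr.2]⟩
  obtain ⟨r, hr, hr'⟩ := intermediate_value_Icc' hst.le h2 ⟨hc, hs.le⟩
  have h3 := h.qq_pos hω (hs0.trans_le hr.1) (lt_of_le_of_lt hr.2 h1)
  rw [hr', qq_root] at h3
  exact lt_irrefl _ h3

/-- **the value at the half period** -/
theorem LM.u_half (h : LM L Ω) (hω : RQ L ω) : uu' L Ω (ω / 2) = 2 + √2 := by
  have hp := hω.pos
  have hn := hω.notMem (ω / 2) (by linarith) (by linarith)
  have h1 : 2 + √2 ≤ uu' L Ω (ω / 2) := by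
    have h2 : Tendsto (uu' L Ω) (𝓝[<] (ω / 2)) (𝓝 (uu' L Ω (ω / 2))) :=
      ((hasDerivAt_u hn).continuousAt.tendsto).mono_left nhdsWithin_le_nhds
    refine ge_of_tendsto h2 ?_
    filter_upwards [Ioo_mem_nhdsLT (show (0 : ℝ) < ω / 2 by linarith)] with t ht
    exact (h.u_gt hω ht.1 ht.2).le
  refine qq_zero_ge ?_ h1
  rw [← h.ode_real hn, dwp_half (by
    have e : 2 * ((ω / 2 : ℝ) : ℂ) = (ω : ℂ) := by push_cast; ring
    rw [e]
    exact hω.mem)]
  simp

theorem LM.image_real (h : LM L Ω) (hω : RQ L ω) :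
    uu' L Ω '' (Set.Ioo 0 (ω / 2)) = Set.Ioi (2 + √2) := by
  have hp := hω.pos
  ext x
  constructor
  · rintro ⟨t, ⟨ht0, ht1⟩, rfl⟩
    exact h.u_gt hω ht0 ht1
  · intro hx
    have hx' : 2 + √2 < x := hx
    obtain ⟨s, hs0, hst, hs⟩ := exists_small (L := L) (Ω := Ω) (b := ω / 2) (by linarith) x
    have h2 : ContinuousOn (uu' L Ω) (Set.Icc s (ω / 2)) :=
      (u_cont hω).mono fun r hr => ⟨hs0.trans_le hr.1, hr.2⟩
    obtain ⟨r, hr, hr'⟩ := intermediate_value_Icc' hst.le h2 ⟨by rw [h.u_half hω]; exact hx'.le, hs.le⟩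
    refine ⟨r, ⟨hs0.trans_le hr.1, lt_of_le_of_ne hr.2 ?_⟩, hr'⟩
    rintro rfl
    rw [h.u_half hω] at hr'
    exact absurd hr' hx'.ne

/-- `Ω` is real -/
theorem LM.exists_RQ (h : LM L Ω) : ∃ ω : ℝ, RQ L ω ∧ (ω : ℂ) ^ 2 = Ω ^ 2 := by
  rcases h.conj_om with h1 | h1
  · exact h.RQ_real h1
  · exfalso
    obtain ⟨ω, hω, h2⟩ := h.RQ_imag h1
    have h3 := h.u_half hω
    unfold uu' at h3
    rw [h2, Complex.zero_re] at h3
    have := s2
    linarith

lemma integrand (h : LM L Ω) (hω : RQ L ω) :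
    ∀ t ∈ Set.Ioo 0 (ω / 2), |(℘'[L] (t : ℂ)).re| • (1 / √(qq (uu' L Ω t))) = 1 := by
  rintro t ⟨ht0, ht1⟩
  have hp := hω.pos
  have ht : (t : ℂ) ∉ L.lattice := hω.notMem t ht0 (by linarith)
  rw [← h.ode_real ht, Real.sqrt_sq_eq_abs, smul_eq_mul]
  have h2 : |(℘'[L] (t : ℂ)).re| ≠ 0 := by
    rw [abs_ne_zero]
    intro h3
    have := h.qq_pos hω ht0 ht1
    rw [← h.ode_real ht, h3] at this
    simp at this
  field_simp

lemma u_deriv (hω : RQ L ω) : ∀ t ∈ Set.Ioo 0 (ω / 2),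
    HasDerivWithinAt (uu' L Ω) (℘'[L] (t : ℂ)).re (Set.Ioo 0 (ω / 2)) t := by
  rintro t ⟨ht0, ht1⟩
  have hp := hω.pos
  exact (hasDerivAt_u (hω.notMem t ht0 (by linarith))).hasDerivWithinAt

/-- **the real period** -/
theorem LM.period (h : LM L Ω) (hω : RQ L ω) :
    IntegrableOn (fun x => 1 / √(qq x)) (Ioi (2 + √2)) ∧
    ∫ x in Ioi (2 + √2), 1 / √(qq x) = ω / 2 := by
  have hp := hω.pos
  rw [← h.image_real hω]
  constructor
  · rw [integrableOn_image_iff_integrableOn_abs_deriv_smul measurableSet_Ioo (u_deriv hω)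
      (h.inj_real hω)]
    refine (integrableOn_congr_fun (g := fun _ => (1 : ℝ)) (fun t ht => integrand h hω t ht)
      measurableSet_Ioo).2 ?_
    exact integrableOn_const (by simp)
  · rw [integral_image_eq_integral_abs_deriv_smul measurableSet_Ioo (u_deriv hω) (h.inj_real hω),
      setIntegral_congr_fun measurableSet_Ioo (integrand h hω), setIntegral_const]
    simp only [Measure.real, Real.volume_Ioo, smul_eq_mul]
    rw [ENNReal.toReal_ofReal (by linarith)]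
    ring

end Run7.h555.C12
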