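import Pool.Agent.Run7.h555.Q4.Z3

/-!
Two-torsion points and classes of `X - e` on `y² = (x - e) (...)`, over a field with a valuation.
-/

set_option autoImplicit false
set_option linter.unusedSectionVars false

namespace Run7.h555.C12

open WeierstrassCurve WithZero
open Run7.h555.Tam (exists_exp exp_sq exp_cube)

section alg

variable {L : Type} [Field L] {W : WeierstrassCurve L} {e D : L}

/-- `e` is a root of the cubic and `D` the value of the derivative there -/
structure CR (W : WeierstrassCurve L) (e D : L) : Prop where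
  k1 : W.a₁ = 0
  k3 : W.a₃ = 0
  root : e ^ 3 + W.a₂ * e ^ 2 + W.a₄ * e + W.a₆ = 0
  der : D = 3 * e ^ 2 + 2 * W.a₂ * e + W.a₄
  ne : D ≠ 0

variable (S : CR W e D) [DecidableEq L]

include S in
omit [DecidableEq L] in
lemma CR.eqn {X Y : L} (h : W.toAffine.Equation X Y) :
    Y ^ 2 = X ^ 3 + W.a₂ * X ^ 2 + W.a₄ * X + W.a₆ := by
  rw [Affine.equation_iff, S.k1, S.k3] at h
  linear_combination h

include S in
omit [DecidableEq L] in
lemma CR.eqn' {X Y : L} (h : W.toAffine.Equation X Y) :
    Y ^ 2 = (X - e) * ((X - e) ^ 2 + (3 * e + W.a₂) * (X - e) + D) := by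
  rw [S.eqn h, S.der]
  linear_combination S.root

include S in
omit [DecidableEq L] in
lemma CR.T_ns : W.toAffine.Nonsingular e 0 := by
  rw [Affine.nonsingular_iff, Affine.equation_iff, S.k1, S.k3]
  refine ⟨by linear_combination -S.root, Or.inl ?_⟩
  intro h
  apply S.ne
  rw [S.der]
  linear_combination -h

/-- the point `(e, 0)` -/
def Tp : W.toAffine.Point := .some e 0 S.T_ns

include S in
/-- the product of the three values of `X - e` on a line is a square -/
theorem line_sq {X₁ Y₁ X₂ Y₂ X₃ Y₃ : L} {h₁ : W.toAffine.Nonsingular X₁ Y₁}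
    {h₂ : W.toAffine.Nonsingular X₂ Y₂} {h₃ : W.toAffine.Nonsingular X₃ Y₃}
    (h : (.some X₁ Y₁ h₁ : W.toAffine.Point) + .some X₂ Y₂ h₂ = .some X₃ Y₃ h₃) :
    ∃ ν : L, (X₁ - e) * (X₂ - e) * (X₃ - e) = ν ^ 2 := by
  have hxy : ¬ (X₁ = X₂ ∧ Y₁ = W.toAffine.negY X₂ Y₂) := by
    rintro ⟨e1, e2⟩
    rw [Affine.Point.add_of_Y_eq e1 e2] at h
    exact Affine.Point.some_ne_zero _ h.symm
  rw [Affine.Point.add_some hxy, Affine.Point.some.injEq] at h
  obtain ⟨hX, -⟩ := h
  have e1 := S.eqn h₁.1
  have e2 := S.eqn h₂.1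
  have hr := S.root
  set l := W.toAffine.slope X₁ X₂ Y₁ Y₂ with hl
  have hX' : X₃ = l ^ 2 - W.a₂ - X₁ - X₂ := by
    rw [← hX]
    simp only [Affine.addX, S.k1]
    ring
  refine ⟨Y₁ - l * (X₁ - e), ?_⟩
  by_cases hx : X₁ = X₂
  · have hy : Y₁ ≠ W.toAffine.negY X₂ Y₂ := fun hc => hxy ⟨hx, hc⟩
    have hyy : Y₁ = Y₂ := by
      rcases Affine.Y_eq_of_X_eq h₁.1 h₂.1 hx with hh | hh
      · exact hh
      · exact absurd hh hy
    have hneg : W.toAffine.negY X₁ Y₁ = -Y₁ := by
      simp only [Affine.negY, S.k1, S.k3]; ring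
    have hd : 2 * Y₁ ≠ 0 := by
      intro h0
      apply hy
      rw [← hx, ← hyy, hneg]
      linear_combination h0
    have hs : l * (2 * Y₁) = 3 * X₁ ^ 2 + 2 * W.a₂ * X₁ + W.a₄ := by
      rw [hl, Affine.slope_of_Y_ne hx hy, hneg, S.k1]
      have hd' : Y₁ - -Y₁ ≠ 0 := by
        intro h0; apply hd; linear_combination h0
      rw [div_mul_eq_mul_div, div_eq_iff hd']
      ring
    rw [hX', ← hx]
    linear_combination -e1 + (X₁ - e) * hs - hr
  · have hx' : X₁ - X₂ ≠ 0 := sub_ne_zero.2 hx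
    have hs : l * (X₁ - X₂) = Y₁ - Y₂ := by
      rw [hl, Affine.slope_of_X_ne hx]
      field_simp
    rw [hX']
    apply mul_left_cancel₀ hx'
    have hY2 : Y₂ = Y₁ - l * (X₁ - X₂) := by linear_combination hs
    rw [hY2] at e2
    linear_combination (X₂ - e) * e1 - (X₁ - e) * e2 - (X₁ - X₂) * hr

include S in
lemma add_T {X Y : L} (hX : X ≠ e) (h : W.toAffine.Nonsingular X Y) :
    ∃ (X' Y' : L) (h' : W.toAffine.Nonsingular X' Y'), X' - e = D / (X - e) ∧
      (.some X Y h : W.toAffine.Point) + Tp S = .some X' Y' h' := by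
  have hxy : ¬ (X = e ∧ Y = W.toAffine.negY e 0) := fun hc => hX hc.1
  have e1 := S.eqn' h.1
  have hX' : X - e ≠ 0 := sub_ne_zero.2 hX
  have hs : W.toAffine.slope X e Y 0 = Y / (X - e) := by
    rw [Affine.slope_of_X_ne hX, sub_zero]
  have hx : W.toAffine.addX X e (W.toAffine.slope X e Y 0) - e = D / (X - e) := by
    rw [hs]
    simp only [Affine.addX, S.k1]
    field_simp
    linear_combination e1
  have key := Affine.Point.add_some (W := W.toAffine) hxy (h₁ := h) (h₂ := S.T_ns)
  have h' := (Affine.nonsingular_add (W := W.toAffine) h S.T_ns hxy)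
  refine ⟨_, _, h', hx, ?_⟩
  unfold Tp
  rw [key]

include S in
omit [DecidableEq L] in
lemma Y_zero {X Y : L} (hX : X = e) (h : W.toAffine.Nonsingular X Y) : Y = 0 := by
  have e1 := S.eqn' h.1
  rw [hX, sub_self, zero_mul] at e1
  exact pow_eq_zero_iff two_ne_zero |>.1 e1

include S in
omit [DecidableEq L] in
lemma eq_T {X Y : L} (hX : X = e) (h : W.toAffine.Nonsingular X Y) :
    (.some X Y h : W.toAffine.Point) = Tp S := by
  have hY := Y_zero S hX h
  unfold Tp
  subst hX hY
  rfl

include S in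
lemma T_add_T : Tp S + Tp S = 0 := by
  unfold Tp
  apply Affine.Point.add_of_Y_eq rfl
  simp only [Affine.negY, S.k1, S.k3]
  ring

include S in
omit [DecidableEq L] in
lemma neg_some' {X Y : L} (h : W.toAffine.Nonsingular X Y) :
    ∃ (h' : W.toAffine.Nonsingular X (-Y)),
      -(.some X Y h : W.toAffine.Point) = .some X (-Y) h' := by
  have e : W.toAffine.negY X Y = -Y := by
    simp only [Affine.negY, S.k1, S.k3]; ring
  have h' : W.toAffine.Nonsingular X (-Y) := by
    rw [← e]
    exact (Affine.nonsingular_neg X Y).2 h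
  refine ⟨h', ?_⟩
  rw [Affine.Point.neg_some]
  congr 1

/-- a class of nonzero elements containing the squares -/
structure Cls (G : L → Prop) : Prop where
  ne : ∀ x, G x → x ≠ 0
  mul : ∀ x y, G x → G y → G (x * y)
  sq : ∀ x, x ≠ 0 → G (x ^ 2)

omit [DecidableEq L] in
lemma Cls.inv {G : L → Prop} (h : Cls G) {x : L} (hx : G x) : G x⁻¹ := by
  have h1 := h.ne x hx
  have h2 := h.mul x (x⁻¹ ^ 2) hx (h.sq _ (inv_ne_zero h1))
  have e : x * x⁻¹ ^ 2 = x⁻¹ := by field_simp
  rwa [e] at h2

omit [DecidableEq L] in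
lemma Cls.div {G : L → Prop} (h : Cls G) {x y : L} (hx : G x) (hy : G y) : G (x / y) := by
  rw [div_eq_mul_inv]
  exact h.mul _ _ hx (h.inv hy)

omit [DecidableEq L] in
/-- cancellation -/
lemma Cls.of_mul {G : L → Prop} (h : Cls G) {x y : L} (hx : G x) (hxy : G (x * y)) : G y := by
  have h1 := h.ne x hx
  have h2 := h.div hxy hx
  rwa [mul_div_cancel_left₀ _ h1] at h2

omit [DecidableEq L] in
lemma Cls.of_sq_mul {G : L → Prop} (h : Cls G) {x y : L} (hx : x ≠ 0) (hxy : G (x ^ 2 * y)) : G y :=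
  h.of_mul (h.sq x hx) hxy

/-- the value of the descent map at a point with `X ≠ e` or `X = e` is in the class -/
def InG (e D : L) (G : L → Prop) (P : W.toAffine.Point) : Prop :=
  ∀ X Y h, P = .some X Y h → (X ≠ e → G (X - e)) ∧ (X = e → G D)

variable {G : L → Prop} (hG : Cls G)

include hG in
/-- the subgroup of the points with value in the class -/
def SG : AddSubgroup W.toAffine.Point where
  carrier := {P | InG e D G P}
  zero_mem' := by
    intro X Y h e
    exact absurd e.symm (Affine.Point.some_ne_zero _)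
  neg_mem' := by
    rintro (_ | ⟨X, Y, h⟩) hP
    · intro X Y h e
      exact absurd e.symm (Affine.Point.some_ne_zero _)
    · intro X' Y' h' e
      obtain ⟨h2, e2⟩ := neg_some' S h
      rw [e2, Affine.Point.some.injEq] at e
      rw [← e.1]
      exact hP X Y h rfl
  add_mem' := by
    have key : ∀ {X Y : L} (h : W.toAffine.Nonsingular X Y), X ≠ e → (G (X - e) ∧ G D) →
        InG e D G ((.some X Y h : W.toAffine.Point) + Tp S) := by
      intro X Y h hX hGX
      obtain ⟨X', Y', h', e1, e2⟩ := add_T S hX h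
      rw [e2]
      intro X'' Y'' h'' e3
      rw [Affine.Point.some.injEq] at e3
      rw [← e3.1, e1]
      refine ⟨fun _ => hG.div hGX.2 hGX.1, fun _ => hGX.2⟩
    rintro (_ | ⟨X₁, Y₁, h₁⟩) (_ | ⟨X₂, Y₂, h₂⟩) hP hQ
    · exact hP
    · exact hQ
    · exact hP
    · have p1 := hP X₁ Y₁ h₁ rfl
      have p2 := hQ X₂ Y₂ h₂ rfl
      by_cases x1 : X₁ = e
      · have e1 := eq_T S x1 h₁
        by_cases x2 : X₂ = e
        · rw [eq_T S x1 h₁, eq_T S x2 h₂, T_add_T]
          intro X Y h e
          exact absurd e.symm (Affine.Point.some_ne_zero _)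
        · rw [e1, add_comm]
          exact key h₂ x2 ⟨p2.1 x2, p1.2 x1⟩
      · by_cases x2 : X₂ = e
        · rw [eq_T S x2 h₂]
          exact key h₁ x1 ⟨p1.1 x1, p2.2 x2⟩
        · intro X₃ Y₃ h₃ e3
          have g1 := p1.1 x1
          have g2 := p2.1 x2
          refine ⟨fun x3 => ?_, fun x3 => ?_⟩
          · obtain ⟨ν, hν⟩ := line_sq S e3
            have hν0 : ν ≠ 0 := by
              rintro rfl
              have : (X₁ - e) * (X₂ - e) * (X₃ - e) = 0 := by rw [hν]; ring
              rcases mul_eq_zero.1 this with h0 | h0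
              · rcases mul_eq_zero.1 h0 with h0 | h0
                · exact x1 (sub_eq_zero.1 h0)
                · exact x2 (sub_eq_zero.1 h0)
              · exact x3 (sub_eq_zero.1 h0)
            have g3 := hG.sq ν hν0
            rw [← hν] at g3
            exact hG.of_mul (hG.mul _ _ g1 g2) g3
          · rw [eq_T S x3 h₃] at e3
            obtain ⟨h1', e1'⟩ := neg_some' S h₁
            obtain ⟨X', Y', h', e2', e'⟩ := add_T S x1 h1'
            have e4 : (.some X₂ Y₂ h₂ : W.toAffine.Point) = .some X' Y' h' := by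
              rw [← e', ← e1', ← e3]
              abel
            rw [Affine.Point.some.injEq] at e4
            have e5 : D = (X₂ - e) * (X₁ - e) := by
              rw [e4.1, e2', div_mul_cancel₀]
              exact sub_ne_zero.2 x1
            rw [e5]
            exact hG.mul _ _ g2 g1

include S hG in
lemma mem_SG (P : W.toAffine.Point) : P ∈ SG S hG ↔ InG e D G P := Iff.rfl

include S hG in
lemma mem_SG_some {X Y : L} (h : W.toAffine.Nonsingular X Y) :
    (.some X Y h : W.toAffine.Point) ∈ SG S hG ↔ (X ≠ e → G (X - e)) ∧ (X = e → G D) := by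
  rw [mem_SG]
  constructor
  · intro h1
    exact h1 X Y h rfl
  · intro h1 X' Y' h' e'
    rw [Affine.Point.some.injEq] at e'
    rw [← e'.1]
    exact h1

include S hG in
lemma mem_SG_T : Tp S ∈ SG S hG ↔ G D := by
  unfold Tp
  rw [mem_SG_some S hG]
  exact ⟨fun h => h.2 rfl, fun h => ⟨fun h' => absurd rfl h', fun _ => h⟩⟩

include S hG in
/-- adding the point `(e, 0)` -/
lemma mem_SG_add {X Y : L} (h : W.toAffine.Nonsingular X Y) (hX : X ≠ e) :
    (.some X Y h : W.toAffine.Point) + Tp S ∈ SG S hG ↔ G (D * (X - e)) := by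
  obtain ⟨X', Y', h', e1, e2⟩ := add_T S hX h
  rw [e2, mem_SG_some S hG, e1]
  have hX' : X - e ≠ 0 := sub_ne_zero.2 hX
  have hne : X' ≠ e := by
    intro h0
    rw [h0, sub_self] at e1
    exact (div_ne_zero S.ne hX') e1.symm
  constructor
  · intro h3
    have h4 := hG.mul _ _ (hG.sq _ hX') (h3.1 hne)
    have e3 : (X - e) ^ 2 * (D / (X - e)) = D * (X - e) := by field_simp
    rwa [e3] at h4
  · intro h3
    refine ⟨fun _ => ?_, fun h0 => absurd h0 hne⟩
    apply hG.of_sq_mul hX'
    have e3 : (X - e) ^ 2 * (D / (X - e)) = D * (X - e) := by field_simp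
    rwa [e3]

end alg

end Run7.h555.C12
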