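import Pool.Agent.Run7.h555.C12.T1

/-!
The descent maps to `ZMod 2` and the local indices for `y² = x³ - 4 m x² + 2 m² x`.
-/

set_option autoImplicit false
set_option linter.unusedSectionVars false

namespace Run7.h555.C12

open WeierstrassCurve WithZero
open Run7.h555.Tam (exists_exp exp_sq exp_cube vint vnat vadd vsub vmul vpow vneg vaddl vsubl vmull vmulr
  vpowl)

section hom

variable {L : Type} [Field L] {W : WeierstrassCurve L} {e D : L} (S : CR W e D) [DecidableEq L]

/-- a quadratic character of the nonzero elements -/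
structure Chr (χ : L → ZMod 2) : Prop where
  mul : ∀ x y, x ≠ 0 → y ≠ 0 → χ (x * y) = χ x + χ y

omit [DecidableEq L] in
lemma Chr.sq {χ : L → ZMod 2} (h : Chr χ) {x : L} (hx : x ≠ 0) : χ (x ^ 2) = 0 := by
  rw [pow_two, h.mul x x hx hx, CharTwo.add_self_eq_zero]

omit [DecidableEq L] in
lemma Chr.div {χ : L → ZMod 2} (h : Chr χ) {x y : L} (hx : x ≠ 0) (hy : y ≠ 0) :
    χ (x / y) = χ x + χ y := by
  have h1 := h.mul (x / y) y (div_ne_zero hx hy) hy
  rw [div_mul_cancel₀ _ hy] at h1
  rw [h1, add_assoc, CharTwo.add_self_eq_zero, add_zero]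

/-- the descent map -/
def dlf (e D : L) (χ : L → ZMod 2) (P : W.toAffine.Point) : ZMod 2 :=
  match P with
  | .zero => 0
  | .some X _ _ => if X = e then χ D else χ (X - e)

lemma dlf_some (χ : L → ZMod 2) {X Y : L} (h : W.toAffine.Nonsingular X Y) :
    dlf e D χ (.some X Y h : W.toAffine.Point) = if X = e then χ D else χ (X - e) := rfl

lemma dlf_zero (χ : L → ZMod 2) : dlf e D χ (0 : W.toAffine.Point) = 0 := rfl

variable {χ : L → ZMod 2} (hχ : Chr χ)

include S hχ in
lemma dlf_add_T {X Y : L} (h : W.toAffine.Nonsingular X Y) (hX : X ≠ e) :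
    dlf e D χ ((.some X Y h : W.toAffine.Point) + Tp S) = χ (X - e) + χ D := by
  obtain ⟨X', Y', h', e1, e2⟩ := add_T S hX h
  have hX' : X - e ≠ 0 := sub_ne_zero.2 hX
  have hne : X' ≠ e := by
    intro h0
    rw [h0, sub_self] at e1
    exact (div_ne_zero S.ne hX') e1.symm
  rw [e2, dlf_some, if_neg hne, e1, hχ.div S.ne hX', add_comm]

include S hχ in
lemma dlf_add (P Q : W.toAffine.Point) : dlf e D χ (P + Q) = dlf e D χ P + dlf e D χ Q := by
  rcases P with _ | ⟨X₁, Y₁, h₁⟩
  · show dlf e D χ (0 + Q) = 0 + _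
    rw [zero_add, zero_add]
  rcases Q with _ | ⟨X₂, Y₂, h₂⟩
  · show dlf e D χ (_ + 0) = _ + 0
    rw [add_zero, add_zero]
  by_cases x1 : X₁ = e
  · have e1 := eq_T S x1 h₁
    by_cases x2 : X₂ = e
    · rw [dlf_some, dlf_some, if_pos x1, if_pos x2, e1, eq_T S x2 h₂, T_add_T,
        CharTwo.add_self_eq_zero]
      rfl
    · rw [e1, add_comm, dlf_add_T S hχ h₂ x2, ← e1, dlf_some, dlf_some, if_pos x1, if_neg x2, add_comm]
  · by_cases x2 : X₂ = e
    · rw [eq_T S x2 h₂, dlf_add_T S hχ h₁ x1, ← eq_T S x2 h₂, dlf_some, dlf_some, if_neg x1, if_pos x2]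
    · rw [dlf_some, dlf_some, if_neg x1, if_neg x2]
      have n1 : X₁ - e ≠ 0 := sub_ne_zero.2 x1
      have n2 : X₂ - e ≠ 0 := sub_ne_zero.2 x2
      rcases e3 : (.some X₁ Y₁ h₁ : W.toAffine.Point) + .some X₂ Y₂ h₂ with _ | ⟨X₃, Y₃, h₃⟩
      · have e4 : (.some X₁ Y₁ h₁ : W.toAffine.Point) + .some X₂ Y₂ h₂ = 0 := e3
        obtain ⟨h1', e1'⟩ := neg_some' S h₁
        have e5 : (.some X₂ Y₂ h₂ : W.toAffine.Point) = .some X₁ (-Y₁) h1' := by
          rw [← e1']
          exact eq_neg_of_add_eq_zero_right e4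
        rw [Affine.Point.some.injEq] at e5
        rw [e4, e5.1, CharTwo.add_self_eq_zero]
        rfl
      · rw [e3, dlf_some]
        split_ifs with x3
        · rw [eq_T S x3 h₃] at e3
          obtain ⟨h1', e1'⟩ := neg_some' S h₁
          obtain ⟨X', Y', h', e2', e'⟩ := add_T S x1 h1'
          have e4 : (.some X₂ Y₂ h₂ : W.toAffine.Point) = .some X' Y' h' := by
            rw [← e', ← e1', ← e3]
            abel
          rw [Affine.Point.some.injEq] at e4
          have e5 : D = (X₁ - e) * (X₂ - e) := by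
            rw [e4.1, e2', mul_comm, div_mul_cancel₀]
            exact n1
          rw [e5]
          exact hχ.mul _ _ n1 n2
        · have n3 : X₃ - e ≠ 0 := sub_ne_zero.2 x3
          obtain ⟨ν, hν⟩ := line_sq S e3
          have hν0 : ν ≠ 0 := by
            rintro rfl
            have : (X₁ - e) * (X₂ - e) * (X₃ - e) = 0 := by rw [hν]; ring
            exact (mul_ne_zero (mul_ne_zero n1 n2) n3) this
          have h5 := hχ.sq hν0
          rw [← hν, hχ.mul _ _ (mul_ne_zero n1 n2) n3, hχ.mul _ _ n1 n2] at h5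
          have h6 : χ (X₁ - e) + χ (X₂ - e) = -χ (X₃ - e) := eq_neg_of_add_eq_zero_left h5
          rw [h6, CharTwo.neg_eq]

/-- the descent map as a homomorphism -/
def dl : W.toAffine.Point →+ ZMod 2 where
  toFun := dlf e D χ
  map_zero' := rfl
  map_add' := dlf_add S hχ

lemma dl_apply (P : W.toAffine.Point) : dl S hχ P = dlf e D χ P := rfl

end hom

section val

variable {L : Type} [Field L] {W : WeierstrassCurve L} {m : L} [DecidableEq L] (v : Valuation L ℤᵐ⁰)

/-- the parity of the order -/
noncomputable def pv (x : L) : ZMod 2 := (((v x).log : ℤ) : ZMod 2)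

omit [DecidableEq L] in
lemma pv_Chr : Chr (pv v) where
  mul x y hx hy := by
    unfold pv
    rw [map_mul, log_mul ((v.ne_zero_iff).2 hx) ((v.ne_zero_iff).2 hy)]
    push_cast
    rfl

omit [DecidableEq L] in
lemma pv_exp {x : L} {k : ℤ} (h : v x = exp k) : pv v x = (k : ZMod 2) := by
  unfold pv
  rw [h, log_exp]

/-- the curve `y² = x³ - 4 m x² + 2 m² x` -/
structure AM (W : WeierstrassCurve L) (m : L) : Prop where
  k1 : W.a₁ = 0
  k2 : W.a₂ = -4 * m
  k3 : W.a₃ = 0
  k4 : W.a₄ = 2 * m ^ 2
  k6 : W.a₆ = 0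
  ne : m ≠ 0
  two : (2 : L) ≠ 0

variable (A : AM W m)

include A in
omit [DecidableEq L] in
lemma AM.S0 : CR W 0 (2 * m ^ 2) :=
  ⟨A.k1, A.k3, by rw [A.k6]; ring, by rw [A.k4]; ring, mul_ne_zero A.two (pow_ne_zero 2 A.ne)⟩

include A in
omit [DecidableEq L] in
lemma AM.eqn {X Y : L} (h : W.toAffine.Nonsingular X Y) :
    Y ^ 2 = X ^ 3 + -4 * m * X ^ 2 + 2 * m ^ 2 * X := by
  have := A.S0.eqn h.1
  rw [A.k2, A.k4, A.k6] at this
  linear_combination this

variable {v}

/-- the points with nonsingular reduction -/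
theorem sing_red {a b x y : L} (ha : v a < 1) (hb : v b < 1) (h : y ^ 2 = x ^ 3 + a * x ^ 2 + b * x) :
    (1 < v x ∨ v (0 * y - (3 * x ^ 2 + 2 * a * x + b)) = 1 ∨ v (2 * y + 0 * x + 0) = 1) ↔
      1 ≤ v x := by
  have e1 : 0 * y - (3 * x ^ 2 + 2 * a * x + b) = -(3 * x ^ 2 + (2 * (a * x) + b)) := by ring
  have e2 : 2 * y + 0 * x + 0 = 2 * y := by ring
  rw [e1, e2, Valuation.map_neg]
  have h3' : v (3 : L) ≤ 1 := by exact_mod_cast vnat v 3
  have h2' : v (2 : L) ≤ 1 := by exact_mod_cast vnat v 2
  constructor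
  · intro hc
    by_contra h1
    push Not at h1
    have hYl : v y < 1 := by
      have : v (y ^ 2) < 1 := by
        rw [h]
        exact vaddl (vaddl (vpowl h1 three_ne_zero) (vmulr ha (vpow h1.le 2))) (vmull hb.le h1)
      rw [map_pow] at this
      by_contra h5
      push Not at h5
      exact absurd this (not_lt.2 (one_le_pow₀ h5))
    rcases hc with hc | hc | hc
    · exact absurd h1.le (not_le.2 hc)
    · have : v (3 * x ^ 2 + (2 * (a * x) + b)) < 1 :=
        vaddl (vmull h3' (vpowl h1 two_ne_zero)) (vaddl (vmull h2' (vmull ha.le h1)) hb)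
      rw [hc] at this
      exact lt_irrefl _ this
    · have : v (2 * y) < 1 := vmull h2' hYl
      rw [hc] at this
      exact lt_irrefl _ this
  · intro h1
    rcases h1.lt_or_eq with h5 | h5
    · exact Or.inl h5
    · right
      have h7' : v (y ^ 2) = 1 := by
        have e : v (x ^ 3) = 1 := by rw [map_pow, ← h5, one_pow]
        have e' : y ^ 2 = x ^ 3 + (a * x ^ 2 + b * x) := by rw [h]; ring
        rw [e', v.map_add_eq_of_lt_left, e]
        rw [e]
        exact vaddl (vmulr ha (vpow h5.ge 2)) (vmulr hb h5.ge)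
      have h8' : v y = 1 := by
        rw [map_pow] at h7'
        exact (pow_eq_one_iff_of_nonneg zero_le two_ne_zero).1 h7'
      rcases h2'.lt_or_eq with h6 | h6
      · left
        have h3 : v (3 : L) = 1 := by
          have e : (3 : L) = 1 + 2 := by norm_num
          rw [e]
          exact v.map_one_add_of_lt h6
        have e : v (3 * x ^ 2) = 1 := by rw [map_mul, h3, map_pow, ← h5, one_pow, one_mul]
        rw [v.map_add_eq_of_lt_left, e]
        rw [e]
        exact vaddl (vmulr h6 (vmul ha.le h5.ge)) hb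
      · right
        rw [map_mul, h6, h8', one_mul]

/-- the order of `x` is even at the points with nonsingular reduction -/
theorem ev_of_le {a b x y : L} (ha : v a < 1) (hb : v b < 1) (h : y ^ 2 = x ^ 3 + a * x ^ 2 + b * x)
    (h1 : 1 ≤ v x) : ∃ k : ℤ, 0 ≤ k ∧ v x = exp (2 * k) := by
  rcases h1.eq_or_lt with h2 | h2
  · exact ⟨0, le_rfl, by rw [← h2]; simp⟩
  · have hX0 : x ≠ 0 := by
      rintro rfl
      simp at h1
    obtain ⟨l, hl⟩ := exists_exp v hX0
    have hm0 : 0 < l := by
      rw [hl, ← exp_zero, exp_lt_exp] at h2; exact h2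
    have hlt : v (a * x ^ 2 + b * x) < v (x ^ 3) := by
      have c1 : v (a * x ^ 2) < v (x ^ 3) := by
        rw [map_mul, map_pow, map_pow, hl, exp_cube, exp_sq]
        calc v a * exp (2 * l) < 1 * exp (2 * l) :=
              mul_lt_mul_of_pos_right ha (by rw [zero_lt_iff]; exact exp_ne_zero)
          _ = exp (2 * l) := one_mul _
          _ < exp (3 * l) := by rw [exp_lt_exp]; omega
      have c2 : v (b * x) < v (x ^ 3) := by
        rw [map_mul, map_pow, hl, exp_cube]
        calc v b * exp l < 1 * exp l :=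
              mul_lt_mul_of_pos_right hb (by rw [zero_lt_iff]; exact exp_ne_zero)
          _ = exp l := one_mul _
          _ < exp (3 * l) := by rw [exp_lt_exp]; omega
      exact v.map_add_lt c1 c2
    have h3 : v (y ^ 2) = v (x ^ 3) := by
      rw [h, add_assoc]
      exact v.map_add_eq_of_lt_left hlt
    have hY0 : y ≠ 0 := by
      rintro rfl
      rw [map_pow, map_pow, hl, map_zero, exp_cube] at h3
      exact exp_ne_zero (by rw [← h3]; simp)
    obtain ⟨j, hj⟩ := exists_exp v hY0
    rw [map_pow, map_pow, hl, hj, exp_cube, exp_sq, exp_inj] at h3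
    exact ⟨l / 2, by omega, by rw [hl, exp_inj]; omega⟩

include A in
/-- a subgroup which is the set of the points with nonsingular reduction -/
theorem idx_of (ha : v (-4 * m) < 1) (hb : v (2 * m ^ 2) < 1) {H : AddSubgroup W.toAffine.Point} {n : ℕ}
    (hH : H.index = n)
    (h0 : ∀ X Y (h : W.toAffine.Nonsingular X Y), (.some X Y h : W.toAffine.Point) ∈ H ↔ 1 ≤ v X) :
    (AddSubgroup.closure {P : W.toAffine.Point | ∀ x y h, P = Affine.Point.some x y h →
      1 < v x ∨ v (W.a₁ * y - (3 * x ^ 2 + 2 * W.a₂ * x + W.a₄)) = 1 ∨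
      v (2 * y + W.a₁ * x + W.a₃) = 1}).index = n := by
  rw [A.k1, A.k2, A.k3, A.k4, ← hH]
  congr 1
  have hset : {P : W.toAffine.Point | ∀ x y h, P = Affine.Point.some x y h →
      1 < v x ∨ v (0 * y - (3 * x ^ 2 + 2 * (-4 * m) * x + 2 * m ^ 2)) = 1 ∨
      v (2 * y + 0 * x + 0) = 1} = (H : Set W.toAffine.Point) := by
    apply Set.ext
    intro P
    constructor
    · intro hP
      rcases P with _ | ⟨x, y, h⟩
      · exact H.zero_mem
      · have h1 := hP x y h rfl
        rw [sing_red ha hb (A.eqn h)] at h1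
        exact (h0 x y h).2 h1
    · intro hP x y h e
      rw [sing_red ha hb (A.eqn h)]
      rw [e] at hP
      exact (h0 x y h).1 hP
  rw [hset]
  exact AddSubgroup.closure_eq _

omit [DecidableEq L] in
lemma ker_index_two {G : Type*} [AddCommGroup G] (f : G →+ ZMod 2) {g : G} (hg : f g = 1) :
    f.ker.index = 2 := by
  have hs : Function.Surjective f := by
    intro x
    have : x = 0 ∨ x = 1 := by revert x; decide
    rcases this with h | h
    · exact ⟨0, by rw [map_zero, h]⟩
    · exact ⟨g, by rw [hg, h]⟩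
  rw [AddSubgroup.index_ker, AddMonoidHom.range_eq_top.2 hs]
  rw [AddSubgroup.card_top]
  simp

omit [DecidableEq L] in
lemma ker_index_four {G : Type*} [AddCommGroup G] (f f' : G →+ ZMod 2) {g g' : G} (h1 : f g = 0)
    (h2 : f' g = 1) (h3 : f g' = 1) : (f.prod f').ker.index = 4 := by
  have hs : Function.Surjective (f.prod f') := by
    rintro ⟨x, y⟩
    refine ⟨x.val • g' + (y + x * f' g').val • g, ?_⟩
    have e : ∀ z : ZMod 2, ((z.val : ℕ) : ZMod 2) = z := fun z => by simp
    have e2 : ∀ z : ZMod 2, z + z = 0 := by decide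
    apply Prod.ext
    · show f _ = x
      rw [map_add, map_nsmul, map_nsmul, h1, h3]
      simp
    · show f' _ = y
      rw [map_add, map_nsmul, map_nsmul, h2]
      simp only [nsmul_eq_mul, e, mul_one]
      linear_combination e2 (x * f' g')
  rw [AddSubgroup.index_ker, AddMonoidHom.range_eq_top.2 hs]
  rw [AddSubgroup.card_top]
  simp

include A in
/-- the place two -/
theorem idx_at_two (h2 : v (2 : L) = exp (-1)) (hm : v m = 1) :
    (AddSubgroup.closure {P : W.toAffine.Point | ∀ x y h, P = Affine.Point.some x y h →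
      1 < v x ∨ v (W.a₁ * y - (3 * x ^ 2 + 2 * W.a₂ * x + W.a₄)) = 1 ∨
      v (2 * y + W.a₁ * x + W.a₃) = 1}).index = 2 := by
  have l2 : v (2 : L) < 1 := by rw [h2, ← exp_zero, exp_lt_exp]; norm_num
  have ha : v (-4 * m) < 1 := by
    have e : -4 * m = -(2 * (2 * m)) := by ring
    rw [e, Valuation.map_neg, map_mul, map_mul, hm, mul_one]
    exact mul_lt_one_of_nonneg_of_lt_one_left zero_le l2 l2.le
  have hbv : v (2 * m ^ 2) = exp (-1) := by rw [map_mul, map_pow, hm, one_pow, mul_one, h2]
  have hb : v (2 * m ^ 2) < 1 := by rw [hbv, ← exp_zero, exp_lt_exp]; norm_num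
  refine idx_of A ha hb (H := (dl A.S0 (pv_Chr v)).ker)
    (ker_index_two (dl A.S0 (pv_Chr v)) (g := Tp A.S0) ?_) ?_
  · show dlf _ _ _ (Tp A.S0) = 1
    unfold Tp
    rw [dlf_some, if_pos rfl, pv_exp v hbv]
    decide
  · intro X Y h
    rw [AddMonoidHom.mem_ker, dl_apply, dlf_some]
    split_ifs with hX
    · rw [pv_exp v hbv, hX, map_zero]
      constructor
      · intro h1; exact absurd h1 (by decide)
      · intro h1; simp at h1
    · rw [sub_zero]
      obtain ⟨k, hk⟩ := exists_exp v hX
      rw [pv_exp v hk]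
      constructor
      · intro h1
        have hk2 : (2 : ℤ) ∣ k := by
          rw [ZMod.intCast_zmod_eq_zero_iff_dvd] at h1
          exact_mod_cast h1
        obtain ⟨j, rfl⟩ := hk2
        by_contra h3
        push Not at h3
        rw [hk, ← exp_zero, exp_lt_exp] at h3
        -- `X` has negative even order, so that `X² - 4 m X + 2 m²` has odd order
        have e1 := A.eqn h
        have h4 : v (X ^ 2 + -4 * m * X) < v (2 * m ^ 2) := by
          rw [hbv]
          refine v.map_add_lt ?_ ?_
          · rw [map_pow, hk, exp_sq, exp_lt_exp]; omega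
          · have e : -4 * m * X = -(2 * 2 * m * X) := by ring
            rw [e, Valuation.map_neg, map_mul, map_mul, map_mul, hm, h2, hk, mul_one, ← exp_add,
              ← exp_add, exp_lt_exp]
            omega
        have h5 : v (X ^ 2 + -4 * m * X + 2 * m ^ 2) = exp (-1) := by
          rw [v.map_add_eq_of_lt_right h4, hbv]
        have h6 : v (Y ^ 2) = exp (2 * j + -1) := by
          have e : Y ^ 2 = X * (X ^ 2 + -4 * m * X + 2 * m ^ 2) := by rw [e1]; ring
          rw [e, map_mul, h5, hk, ← exp_add]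
        have hY0 : Y ≠ 0 := by
          rintro rfl
          rw [map_pow, map_zero] at h6
          exact exp_ne_zero (by rw [← h6]; simp)
        obtain ⟨l, hl⟩ := exists_exp v hY0
        rw [map_pow, hl, exp_sq, exp_inj] at h6
        omega
      · intro h1
        obtain ⟨j, -, hj⟩ := ev_of_le ha hb (A.eqn h) h1
        rw [hk, exp_inj] at hj
        rw [hj]
        push_cast
        have : (2 : ZMod 2) = 0 := by decide
        rw [this, zero_mul]

include A in
/-- the places dividing `m` where `2` is not a square -/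
theorem idx_nonsq (h2 : v (2 : L) = 1) (hm : v m = exp (-1)) (hs : ∀ s : L, ¬ v (2 - s ^ 2) < 1) :
    (AddSubgroup.closure {P : W.toAffine.Point | ∀ x y h, P = Affine.Point.some x y h →
      1 < v x ∨ v (W.a₁ * y - (3 * x ^ 2 + 2 * W.a₂ * x + W.a₄)) = 1 ∨
      v (2 * y + W.a₁ * x + W.a₃) = 1}).index = 2 := by
  have lm : v m < 1 := by rw [hm, ← exp_zero, exp_lt_exp]; norm_num
  have n4 : v (4 : L) ≤ 1 := by exact_mod_cast vnat v 4
  have ha : v (-4 * m) < 1 := by
    have e : -4 * m = -(4 * m) := by ring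
    rw [e, Valuation.map_neg]
    exact vmull n4 lm
  have hb : v (2 * m ^ 2) < 1 := vmull h2.le (vpowl lm two_ne_zero)
  have hm2 : v (2 * m ^ 2) = v m ^ 2 := by rw [map_mul, h2, one_mul, map_pow]
  -- the class of the elements which are near to a square
  have hG : Cls (fun x : L => x ≠ 0 ∧ ∃ s, v (x - s ^ 2) < v x) := by
    refine ⟨fun x h => h.1, ?_, ?_⟩
    · rintro x y ⟨hx, s, hs⟩ ⟨hy, t, ht⟩
      refine ⟨mul_ne_zero hx hy, s * t, ?_⟩
      have e : x * y - (s * t) ^ 2 = (x * (y - t ^ 2) + y * (x - s ^ 2)) - (x - s ^ 2) * (y - t ^ 2) := by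
        ring
      have vx := (v.ne_zero_iff).2 hx
      have vy := (v.ne_zero_iff).2 hy
      rw [e, map_mul]
      refine v.map_sub_lt (v.map_add_lt ?_ ?_) ?_
      · rw [map_mul]
        exact mul_lt_mul_of_pos_left ht (zero_lt_iff.2 vx)
      · rw [map_mul, mul_comm (v x)]
        exact mul_lt_mul_of_pos_left hs (zero_lt_iff.2 vy)
      · rw [map_mul]
        exact mul_lt_mul'' hs ht zero_le zero_le
    · intro x hx
      refine ⟨pow_ne_zero 2 hx, x, ?_⟩
      rw [sub_self, map_zero]
      exact zero_lt_iff.2 ((v.ne_zero_iff).2 (pow_ne_zero 2 hx))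
  have hD : ¬ ((2 * m ^ 2 : L) ≠ 0 ∧ ∃ s, v (2 * m ^ 2 - s ^ 2) < v (2 * m ^ 2)) := by
    rintro ⟨-, s, h1⟩
    apply hs (s / m)
    have e : 2 * m ^ 2 - s ^ 2 = (2 - (s / m) ^ 2) * m ^ 2 := by
      have := A.ne
      field_simp
    rw [e, map_mul, hm2, map_pow] at h1
    have h3 : 0 < v m ^ 2 := zero_lt_iff.2 (pow_ne_zero 2 ((v.ne_zero_iff).2 A.ne))
    by_contra h4
    push Not at h4
    have h5 : 1 * v m ^ 2 ≤ v (2 - (s / m) ^ 2) * v m ^ 2 := mul_le_mul_left h4 _
    rw [one_mul] at h5
    exact absurd h1 (not_lt.2 h5)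
  have hgood : ∀ X Y : L, W.toAffine.Nonsingular X Y → 1 ≤ v X →
      (X ≠ 0 ∧ ∃ s, v (X - s ^ 2) < v X) := by
    intro X Y h h1
    have hX0 : X ≠ 0 := by
      rintro rfl
      simp at h1
    refine ⟨hX0, Y / X, ?_⟩
    have e : X - (Y / X) ^ 2 = -(-4 * m + 2 * m ^ 2 / X) := by
      rw [div_pow, A.eqn h]
      field_simp
      ring
    rw [e, Valuation.map_neg]
    refine lt_of_lt_of_le ?_ h1
    refine vaddl ha ?_
    rw [map_div₀]
    refine lt_of_le_of_lt ?_ hb
    rw [div_le_iff₀ (zero_lt_iff.2 ((v.ne_zero_iff).2 hX0))]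
    exact le_mul_of_one_le_right' h1
  set G : L → Prop := fun x : L => x ≠ 0 ∧ ∃ s, v (x - s ^ 2) < v x with hGd
  have hiff : ∀ X Y (h : W.toAffine.Nonsingular X Y), (.some X Y h : W.toAffine.Point) ∈ SG A.S0 hG ↔
      1 ≤ v X := by
    intro X Y h
    rw [mem_SG_some A.S0 hG]
    constructor
    · rintro ⟨h1, h3⟩
      by_cases hX : X = 0
      · exact absurd (h3 hX) hD
      · by_contra h4
        push Not at h4
        have h5 := h1 hX
        obtain ⟨X', Y', h', e1, e2⟩ := add_T A.S0 hX h
        rw [sub_zero, sub_zero] at e1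
        -- the point `P + T` has nonsingular reduction
        have h6 : 1 ≤ v X' := by
          by_contra h7
          push Not at h7
          obtain ⟨k, hk⟩ := exists_exp v hX
          have hk0 : k < 0 := by
            rw [hk, ← exp_zero, exp_lt_exp] at h4
            exact h4
          have hv' : v X' = exp (-2 - k) := by
            rw [e1, map_div₀, hm2, hm, hk, exp_sq, ← exp_sub]
            norm_num
          have hk1 : -2 < k := by
            rw [hv', ← exp_zero, exp_lt_exp] at h7
            omega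
          have hk2 : k = -1 := by omega
          subst hk2
          -- `X = m t` with `t² - 4 t + 2` of positive order
          have e3 := A.eqn h
          set t := X / m with ht
          have hXt : X = m * t := by
            rw [ht]
            have := A.ne
            field_simp
          have hvt : v t = 1 := by
            rw [ht, map_div₀, hk, hm]
            exact div_self exp_ne_zero
          have e4 : Y ^ 2 = m ^ 3 * (t * (t ^ 2 - 4 * t + 2)) := by
            rw [e3, hXt]
            ring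
          have e5 : v (t ^ 2 - 4 * t + 2) < 1 := by
            have c1 : v (t ^ 2 - 4 * t + 2) ≤ 1 :=
              vadd (vsub (vpow hvt.le 2) (vmul n4 hvt.le)) h2.le
            refine lt_of_le_of_ne c1 ?_
            intro c2
            have h8 := congrArg v e4
            rw [map_mul, map_mul, c2, hvt, mul_one, mul_one, map_pow, map_pow, hm, exp_cube] at h8
            have hY0 : Y ≠ 0 := by
              rintro rfl
              rw [map_zero] at h8
              exact exp_ne_zero (by rw [← h8]; simp)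
            obtain ⟨l, hl⟩ := exists_exp v hY0
            rw [hl, exp_sq, exp_inj] at h8
            omega
          apply hs (t - 2)
          have e6 : 2 - (t - 2) ^ 2 = -(t ^ 2 - 4 * t + 2) := by ring
          rw [e6, Valuation.map_neg]
          exact e5
        have h7 := hgood X' Y' h' h6
        have h8 := hG.mul _ _ h7 h5
        rw [e1, sub_zero, div_mul_cancel₀ _ hX] at h8
        exact hD h8
    · intro h1
      refine ⟨fun _ => by rw [sub_zero]; exact hgood X Y h h1, fun h3 => ?_⟩
      rw [h3, map_zero] at h1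
      simp at h1
  refine idx_of A ha hb (H := SG A.S0 hG) ?_ hiff
  rw [AddSubgroup.index_eq_two_iff]
  refine ⟨Tp A.S0, ?_⟩
  have hT : Tp A.S0 ∉ SG A.S0 hG := by
    rw [mem_SG_T]
    exact hD
  rintro (_ | ⟨X, Y, h⟩)
  · refine Or.inr ⟨(SG A.S0 hG).zero_mem, ?_⟩
    have e : (Affine.Point.zero : W.toAffine.Point) + Tp A.S0 = Tp A.S0 := zero_add _
    rw [e]
    exact hT
  · by_cases hX : X = 0
    · rw [eq_T A.S0 hX h, T_add_T]
      exact Or.inl ⟨(SG A.S0 hG).zero_mem, hT⟩
    · by_cases h1 : (.some X Y h : W.toAffine.Point) ∈ SG A.S0 hG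
      · refine Or.inr ⟨h1, fun h3 => hT ?_⟩
        have := (SG A.S0 hG).sub_mem h3 h1
        rwa [add_sub_cancel_left] at this
      · refine Or.inl ⟨?_, h1⟩
        have h4 : v X < 1 := by
          rw [hiff] at h1
          exact not_le.1 h1
        obtain ⟨X', Y', h', e1, e2⟩ := add_T A.S0 hX h
        rw [e2, hiff]
        rw [sub_zero, sub_zero] at e1
        by_contra h7
        push Not at h7
        obtain ⟨k, hk⟩ := exists_exp v hX
        have hk0 : k < 0 := by
          rw [hk, ← exp_zero, exp_lt_exp] at h4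
          exact h4
        have hv' : v X' = exp (-2 - k) := by
          rw [e1, map_div₀, hm2, hm, hk, exp_sq, ← exp_sub]
          norm_num
        have hk1 : -2 < k := by
          rw [hv', ← exp_zero, exp_lt_exp] at h7
          omega
        have hk2 : k = -1 := by omega
        subst hk2
        have e3 := A.eqn h
        set t := X / m with ht
        have hXt : X = m * t := by
          rw [ht]
          have := A.ne
          field_simp
        have hvt : v t = 1 := by
          rw [ht, map_div₀, hk, hm]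
          exact div_self exp_ne_zero
        have e4 : Y ^ 2 = m ^ 3 * (t * (t ^ 2 - 4 * t + 2)) := by
          rw [e3, hXt]
          ring
        have e5 : v (t ^ 2 - 4 * t + 2) < 1 := by
          have c1 : v (t ^ 2 - 4 * t + 2) ≤ 1 :=
            vadd (vsub (vpow hvt.le 2) (vmul n4 hvt.le)) h2.le
          refine lt_of_le_of_ne c1 ?_
          intro c2
          have h8 := congrArg v e4
          rw [map_mul, map_mul, c2, hvt, mul_one, mul_one, map_pow, map_pow, hm, exp_cube] at h8
          have hY0 : Y ≠ 0 := by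
            rintro rfl
            rw [map_zero] at h8
            exact exp_ne_zero (by rw [← h8]; simp)
          obtain ⟨l, hl⟩ := exists_exp v hY0
          rw [hl, exp_sq, exp_inj] at h8
          omega
        apply hs (t - 2)
        have e6 : 2 - (t - 2) ^ 2 = -(t ^ 2 - 4 * t + 2) := by ring
        rw [e6, Valuation.map_neg]
        exact e5

include A in
/-- the places dividing `m` where `2` is a square -/
theorem idx_sq (h2 : v (2 : L) = 1) (hm : v m = exp (-1)) {s : L} (hs : s ^ 2 = 2) :
    (AddSubgroup.closure {P : W.toAffine.Point | ∀ x y h, P = Affine.Point.some x y h →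
      1 < v x ∨ v (W.a₁ * y - (3 * x ^ 2 + 2 * W.a₂ * x + W.a₄)) = 1 ∨
      v (2 * y + W.a₁ * x + W.a₃) = 1}).index = 4 := by
  have lm : v m < 1 := by rw [hm, ← exp_zero, exp_lt_exp]; norm_num
  have n4 : v (4 : L) ≤ 1 := by exact_mod_cast vnat v 4
  have ha : v (-4 * m) < 1 := by
    have e : -4 * m = -(4 * m) := by ring
    rw [e, Valuation.map_neg]
    exact vmull n4 lm
  have hb : v (2 * m ^ 2) < 1 := vmull h2.le (vpowl lm two_ne_zero)
  have hbv : v (2 * m ^ 2) = exp (-2) := by
    rw [map_mul, h2, one_mul, map_pow, hm, exp_sq]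
    norm_num
  have hvs : v s = 1 := by
    have h1 := congrArg v hs
    rw [map_pow, h2] at h1
    exact (pow_eq_one_iff_of_nonneg zero_le two_ne_zero).1 h1
  have hu : v (2 + s) = 1 := by
    have c1 : v (2 + s) ≤ 1 := vadd h2.le hvs.le
    have c2 : v (2 - s) ≤ 1 := vsub h2.le hvs.le
    have c3 : v (2 + s) * v (2 - s) = 1 := by
      rw [← map_mul]
      have e : (2 + s) * (2 - s) = 2 := by linear_combination -hs
      rw [e, h2]
    by_contra c4
    have c5 : v (2 + s) < 1 := lt_of_le_of_ne c1 c4
    have c6 : v (2 + s) * v (2 - s) < 1 := mul_lt_one_of_nonneg_of_lt_one_left zero_le c5 c2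
    rw [c3] at c6
    exact lt_irrefl _ c6
  have hu2 : v (1 + s) = 1 := by
    have c1 : v (1 + s) ≤ 1 := vadd (by simp) hvs.le
    have c2 : v (s - 1) ≤ 1 := vsub hvs.le (by simp)
    have c3 : v (1 + s) * v (s - 1) = 1 := by
      rw [← map_mul]
      have e : (1 + s) * (s - 1) = 1 := by linear_combination hs
      rw [e, map_one]
    by_contra c4
    have c5 : v (1 + s) < 1 := lt_of_le_of_ne c1 c4
    have c6 : v (1 + s) * v (s - 1) < 1 := mul_lt_one_of_nonneg_of_lt_one_left zero_le c5 c2
    rw [c3] at c6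
    exact lt_irrefl _ c6
  have s0 : 1 + s ≠ 0 := by
    intro h0
    rw [h0, map_zero] at hu2
    exact zero_ne_one hu2
  set e1 := m * (2 + s) with he1
  have hev : v e1 = exp (-1) := by rw [he1, map_mul, hu, hm, mul_one]
  have he0 : e1 ≠ 0 := by
    intro h0
    rw [h0, map_zero] at hev
    exact exp_ne_zero hev.symm
  have S1 : CR W e1 (4 * m ^ 2 * (1 + s)) := by
    refine ⟨A.k1, A.k3, ?_, ?_, ?_⟩
    · rw [A.k2, A.k4, A.k6, he1]
      linear_combination (m ^ 3 * (2 + s)) * hs
    · rw [A.k2, A.k4, he1]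
      linear_combination (-3 * m ^ 2) * hs
    · have h4 : (4 : L) ≠ 0 := by
        have : (4 : L) = 2 * 2 := by norm_num
        rw [this]
        exact mul_ne_zero A.two A.two
      exact mul_ne_zero (mul_ne_zero h4 (pow_ne_zero 2 A.ne)) s0
  have two0 : ∀ k : ℤ, ((2 * k : ℤ) : ZMod 2) = 0 := by
    intro k
    push_cast
    have : (2 : ZMod 2) = 0 := by decide
    rw [this, zero_mul]
  refine idx_of A ha hb (H := ((dl A.S0 (pv_Chr v)).prod (dl S1 (pv_Chr v))).ker)
    (ker_index_four (dl A.S0 (pv_Chr v)) (dl S1 (pv_Chr v)) (g := Tp A.S0) (g' := Tp S1) ?_ ?_ ?_) ?_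
  · show dlf _ _ _ (Tp A.S0) = 0
    unfold Tp
    rw [dlf_some, if_pos rfl, pv_exp v hbv]
    decide
  · show dlf _ _ _ (Tp A.S0) = 1
    unfold Tp
    rw [dlf_some, if_neg he0.symm, zero_sub, pv_exp v (k := -1) (by rw [Valuation.map_neg, hev])]
    decide
  · show dlf _ _ _ (Tp S1) = 1
    unfold Tp
    rw [dlf_some, if_neg he0, sub_zero, pv_exp v hev]
    decide
  · intro X Y h
    rw [AddMonoidHom.mem_ker, AddMonoidHom.prod_apply, Prod.mk_eq_zero, dl_apply, dl_apply,
      dlf_some, dlf_some]
    constructor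
    · rintro ⟨h1, h3⟩
      by_contra h4
      push Not at h4
      by_cases hX : X = 0
      · rw [if_neg (by rw [hX]; exact he0.symm), hX, zero_sub,
          pv_exp v (k := -1) (by rw [Valuation.map_neg, hev])] at h3
        exact absurd h3 (by decide)
      · rw [if_neg hX, sub_zero] at h1
        obtain ⟨k, hk⟩ := exists_exp v hX
        rw [pv_exp v hk, ZMod.intCast_zmod_eq_zero_iff_dvd] at h1
        have hk0 : k < 0 := by
          rw [hk, ← exp_zero, exp_lt_exp] at h4
          exact h4
        have hk1 : k < -1 := by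
          have h1' : (2 : ℤ) ∣ k := by exact_mod_cast h1
          omega
        have hlt : v X < v e1 := by rw [hk, hev, exp_lt_exp]; exact hk1
        have hXe : X ≠ e1 := by
          rintro rfl
          exact lt_irrefl _ hlt
        have h5 : v (X - e1) = exp (-1) := by rw [v.map_sub_eq_of_lt_right hlt, hev]
        rw [if_neg hXe, pv_exp v h5] at h3
        exact absurd h3 (by decide)
    · intro h1
      obtain ⟨j, hj0, hj⟩ := ev_of_le ha hb (A.eqn h) h1
      have hX0 : X ≠ 0 := by
        rintro rfl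
        simp at h1
      have hlt : v e1 < v X := by rw [hj, hev, exp_lt_exp]; omega
      have hXe : X ≠ e1 := by
        rintro rfl
        exact lt_irrefl _ hlt
      refine ⟨?_, ?_⟩
      · rw [if_neg hX0, sub_zero, pv_exp v hj]
        exact two0 j
      · rw [if_neg hXe, pv_exp v (k := 2 * j) (by rw [v.map_sub_eq_of_lt_left hlt, hj])]
        exact two0 j

include A in
/-- good reduction -/
theorem idx_good (h2 : v (2 : L) = 1) (hm : v m = 1) :
    (AddSubgroup.closure {P : W.toAffine.Point | ∀ x y h, P = Affine.Point.some x y h →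
      1 < v x ∨ v (W.a₁ * y - (3 * x ^ 2 + 2 * W.a₂ * x + W.a₄)) = 1 ∨
      v (2 * y + W.a₁ * x + W.a₃) = 1}).index = 1 := by
  rw [A.k1, A.k2, A.k3, A.k4, AddSubgroup.index_eq_one]
  have h3' : v (3 : L) ≤ 1 := by exact_mod_cast vnat v 3
  have h4' : v (4 : L) ≤ 1 := by exact_mod_cast vnat v 4
  have h8' : v (8 : L) ≤ 1 := by exact_mod_cast vnat v 8
  have e : {P : W.toAffine.Point | ∀ x y h, P = Affine.Point.some x y h →
      1 < v x ∨ v (0 * y - (3 * x ^ 2 + 2 * (-4 * m) * x + 2 * m ^ 2)) = 1 ∨
      v (2 * y + 0 * x + 0) = 1} = Set.univ := by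
    rw [Set.eq_univ_iff_forall]
    intro P x y h _
    rcases lt_or_ge 1 (v x) with hx | hx
    · exact Or.inl hx
    · right
      have e1 : 0 * y - (3 * x ^ 2 + 2 * (-4 * m) * x + 2 * m ^ 2) =
          -(3 * x ^ 2 - 8 * m * x + 2 * m ^ 2) := by ring
      have e2 : 2 * y + 0 * x + 0 = 2 * y := by ring
      rw [e1, e2, Valuation.map_neg]
      have h := A.eqn h
      have hy : v y ≤ 1 := by
        have h4 : v (y ^ 2) ≤ 1 := by
          rw [h]
          refine vadd (vadd (vpow hx 3) (vmul (vmul ?_ hm.le) (vpow hx 2)))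
            (vmul (vmul h2.le (vpow hm.le 2)) hx)
          rw [Valuation.map_neg]
          exact h4'
        rw [map_pow] at h4
        by_contra h5
        push Not at h5
        exact absurd h4 (not_le.2 (one_lt_pow₀ h5 two_ne_zero))
      rcases hy.lt_or_eq with h4 | h4
      · left
        have h5 : v (x * (x ^ 2 - 4 * m * x + 2 * m ^ 2)) < 1 := by
          have e : x * (x ^ 2 - 4 * m * x + 2 * m ^ 2) = y ^ 2 := by rw [h]; ring
          rw [e]
          exact vpowl h4 two_ne_zero
        have hcu : v (2 * m ^ 2) = 1 := by rw [map_mul, h2, map_pow, hm, one_pow, one_mul]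
        rcases hx.lt_or_eq with h6 | h6
        · have h7 : v (3 * x ^ 2 - 8 * m * x) < v (2 * m ^ 2) := by
            rw [hcu]
            exact vsubl (vmull h3' (vpowl h6 two_ne_zero)) (vmull (vmul h8' hm.le) h6)
          rw [v.map_add_eq_of_lt_right h7, hcu]
        · rw [map_mul, h6, one_mul] at h5
          -- `3 q - 2 (...)`, with `q = x² - 4 m x + 2 m²`: the derivative is `x (2 x - 4 m)` modulo `q`
          have h7 : v (2 * x - 4 * m) = 1 := by
            have c1 : v (x - 2 * m) = 1 := by
              have c2 : v ((x - 2 * m) ^ 2) = 1 := by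
                have e : (x - 2 * m) ^ 2 = (x ^ 2 - 4 * m * x + 2 * m ^ 2) + 2 * m ^ 2 := by ring
                rw [e, v.map_add_eq_of_lt_right, hcu]
                rw [hcu]
                exact h5
              rw [map_pow] at c2
              exact (pow_eq_one_iff_of_nonneg zero_le two_ne_zero).1 c2
            have e : 2 * x - 4 * m = 2 * (x - 2 * m) := by ring
            rw [e, map_mul, h2, c1, one_mul]
          have e : 3 * x ^ 2 - 8 * m * x + 2 * m ^ 2 =
              (x ^ 2 - 4 * m * x + 2 * m ^ 2) + x * (2 * x - 4 * m) := by ring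
          have h8 : v (x * (2 * x - 4 * m)) = 1 := by rw [map_mul, h6, h7, one_mul]
          rw [e, v.map_add_eq_of_lt_right, h8]
          rw [h8]
          exact h5
      · right
        rw [map_mul, h2, h4, one_mul]
  rw [e]
  exact AddSubgroup.closure_univ

end val

end Run7.h555.C12
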